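import Mathlib

set_option autoImplicit false

/-!
# Integer weights of shortest-paths preserving reweightings of DAGs can be forced to be exponential

A directed acyclic graph with three layers (sources, three middle vertices, sinks). A source `s` and a
sink `t` carry two coordinates `a, b`; the shortest path from `s` to `t` uses the first middle vertex
if `a s < a t` and `(a + b) s < (a + b) t`, the second if `a s > a t` and `b s < b t`, and the third if
`(a + b) s > (a + b) t` and `b s > b t`. A ladder of such comparisons forces a difference of coordinates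
to double at each step.
-/

namespace Pool.Agent.Results.MP_546b07_lc.ExponentialWeights

/-- `l` is the list of the vertices of a directed path from `s` to `t` (in an acyclic graph the
vertices of such a list are distinct). -/
def IsPath {V : Type} (E : V → V → Prop) (s t : V) (l : List V) : Prop :=
  l.IsChain E ∧ l.head? = some s ∧ l.getLast? = some t

/-- The weight of a list of vertices: the sum of the weights of its steps. -/
def pathWeight {V : Type} (w : V → V → ℝ) : List V → ℝ
  | u :: v :: l => w u v + pathWeight w (v :: l)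
  | _ => 0

/-- `l` is a shortest path from `s` to `t`. -/
def IsShortest {V : Type} (E : V → V → Prop) (w : V → V → ℝ) (s t : V) (l : List V) : Prop :=
  IsPath E s t l ∧ ∀ l', IsPath E s t l' → pathWeight w l ≤ pathWeight w l'

/-- The graph has no directed cycle. -/
def Acyclic {V : Type} (E : V → V → Prop) : Prop := ∀ v, ¬ Relation.TransGen E v v

/-- Every shortest path for the weights `h` is a shortest path for the weights `w`. -/
def Preserving {V : Type} (E : V → V → Prop) (w h : V → V → ℝ) : Prop :=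
  ∀ s t l, IsShortest E h s t l → IsShortest E w s t l

/-! ### The graph -/

/-- The names of the sources and of the sinks. -/
abbrev Nm (L : ℕ) : Type := Option (Fin (L + 1) × Fin 5)

/-- The vertices: sources, middle vertices, sinks, isolated vertices. -/
abbrev Vx (L r : ℕ) : Type := Nm L ⊕ Fin 3 ⊕ Nm L ⊕ Fin r

section graph

variable {L r : ℕ}

/-- A source. -/
abbrev src (x : Nm L) : Vx L r := Sum.inl x

/-- A middle vertex. -/
abbrev mid (m : Fin 3) : Vx L r := Sum.inr (Sum.inl m)

/-- A sink. -/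
abbrev snk (y : Nm L) : Vx L r := Sum.inr (Sum.inr (Sum.inl y))

/-- The edges. -/
def Ed : Vx L r → Vx L r → Prop
  | Sum.inl _, Sum.inr (Sum.inl _) => True
  | Sum.inr (Sum.inl _), Sum.inr (Sum.inr (Sum.inl _)) => True
  | _, _ => False

/-- The layer of a vertex. -/
def layer : Vx L r → ℕ
  | Sum.inl _ => 0
  | Sum.inr (Sum.inl _) => 1
  | Sum.inr (Sum.inr _) => 2

theorem layer_lt {u v : Vx L r} (h : Ed u v) : layer u < layer v := by
  rcases u with u | u | u | u <;> rcases v with v | v | v | v <;> simp [Ed, layer] at h ⊢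

theorem acyclic : Acyclic (Ed : Vx L r → Vx L r → Prop) := by
  intro v hv
  have key : ∀ u, Relation.TransGen (Ed : Vx L r → Vx L r → Prop) v u → layer v < layer u := by
    intro u hu
    induction hu with
    | single h => exact layer_lt h
    | tail _ h ih => exact ih.trans (layer_lt h)
  exact lt_irrefl _ (key v hv)

theorem path_iff (x y : Nm L) (l : List (Vx L r)) :
    IsPath Ed (src x) (snk y) l ↔ ∃ m : Fin 3, l = [src x, mid m, snk y] := by
  constructor
  · rintro ⟨h1, h2, h3⟩
    rcases l with _ | ⟨a, l⟩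
    · simp at h2
    obtain rfl : a = src x := by simpa using h2
    rcases l with _ | ⟨b, l⟩
    · simp at h3
    rw [List.isChain_cons_cons] at h1
    obtain ⟨h4, h5⟩ := h1
    rcases b with b | m | b | b
    · exact h4.elim
    swap
    · exact h4.elim
    swap
    · exact h4.elim
    rcases l with _ | ⟨c, l⟩
    · simp at h3
    rw [List.isChain_cons_cons] at h5
    obtain ⟨h6, h7⟩ := h5
    rcases c with c | c | c | c
    · exact h6.elim
    · exact h6.elim
    swap
    · exact h6.elim
    rcases l with _ | ⟨d, l⟩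
    · have : c = y := by simpa using h3
      exact ⟨m, by rw [this]⟩
    · rw [List.isChain_cons_cons] at h7
      rcases d with d | d | d | d <;> exact h7.1.elim
  · rintro ⟨m, rfl⟩
    refine ⟨?_, rfl, rfl⟩
    simp [Ed]

/-- The weight of the path through `m`. -/
def via (w : Vx L r → Vx L r → ℝ) (x y : Nm L) (m : Fin 3) : ℝ :=
  w (src x) (mid m) + w (mid m) (snk y)

theorem weight_via (w : Vx L r → Vx L r → ℝ) (x y : Nm L) (m : Fin 3) :
    pathWeight w [src x, mid m, snk y] = via w x y m := by
  simp [pathWeight, via]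

/-- A preserving reweighting keeps the unique best middle vertex. -/
theorem keep {w h : Vx L r → Vx L r → ℝ} (hp : Preserving Ed w h) (x y : Nm L) (m₀ : Fin 3)
    (hw : ∀ m, m ≠ m₀ → via w x y m₀ < via w x y m) :
    ∀ m, m ≠ m₀ → via h x y m₀ < via h x y m := by
  have main : ∀ m₁, (∀ m, via h x y m₁ ≤ via h x y m) → m₁ = m₀ := by
    intro m₁ hm₁
    have h1 : IsShortest Ed h (src x) (snk y) [src x, mid m₁, snk y] := by
      refine ⟨(path_iff _ _ _).2 ⟨m₁, rfl⟩, fun l' hl' => ?_⟩
      obtain ⟨m, rfl⟩ := (path_iff _ _ _).1 hl'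
      rw [weight_via, weight_via]
      exact hm₁ m
    have h2 := (hp _ _ _ h1).2 _ ((path_iff _ _ _).2 ⟨m₀, rfl⟩)
    rw [weight_via, weight_via] at h2
    by_contra hne
    exact absurd (hw m₁ hne) (not_lt.2 h2)
  obtain ⟨m₁, hm₁⟩ := Finite.exists_min (via h x y)
  obtain rfl := main m₁ hm₁
  intro m hm
  by_contra hlt
  rw [not_lt] at hlt
  exact hm (main m fun m' => hlt.trans (hm₁ m'))

end graph

/-! ### The weights -/

/-- The first coordinate of a source. -/
noncomputable def aS (L : ℕ) : Nm L → ℝ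
  | none => 100 * 2 ^ L
  | some (i, 0) => -(7 * 2 ^ i.val - 6)
  | some (i, 1) => -(7 * 2 ^ i.val - 5)
  | some (i, 2) => -(7 * 2 ^ i.val - 5)
  | some (i, 3) => 7 * 2 ^ i.val - 11 / 2
  | some (_, 4) => 100 * 2 ^ L

/-- The second coordinate of a source. -/
noncomputable def bS (L : ℕ) : Nm L → ℝ
  | none => 1 / 2
  | some (i, 0) => 7 * 2 ^ i.val - 7
  | some (i, 1) => 14 * 2 ^ i.val - 8
  | some (_, 2) => -1
  | some (_, 3) => -(100 * 2 ^ L)
  | some (i, 4) => -(14 * 2 ^ i.val - 15 / 2)

/-- The first coordinate of a sink. -/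
noncomputable def aT (L : ℕ) : Nm L → ℝ
  | none => -(100 * 2 ^ L)
  | some (i, 0) => 7 * 2 ^ i.val - 6
  | some (i, 1) => 7 * 2 ^ i.val - 5
  | some (i, 2) => 7 * 2 ^ i.val - 5
  | some (i, 3) => -(7 * 2 ^ i.val - 11 / 2)
  | some (_, 4) => -(100 * 2 ^ L)

/-- The second coordinate of a sink. -/
noncomputable def bT (L : ℕ) : Nm L → ℝ
  | none => -1 / 2
  | some (i, 0) => -(7 * 2 ^ i.val - 7)
  | some (_, 1) => 1
  | some (i, 2) => -(14 * 2 ^ i.val - 8)
  | some (_, 3) => 100 * 2 ^ L
  | some (i, 4) => 14 * 2 ^ i.val - 15 / 2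

theorem pow_bd {L : ℕ} (i : Fin (L + 1)) : (1 : ℝ) ≤ 2 ^ i.val ∧ (2 : ℝ) ^ i.val ≤ 2 ^ L :=
  ⟨one_le_pow₀ (by norm_num), pow_le_pow_right₀ (by norm_num) (Nat.lt_succ_iff.1 i.2)⟩

theorem one_le_pow_two (L : ℕ) : (1 : ℝ) ≤ 2 ^ L := one_le_pow₀ (by norm_num)

theorem aS_bd {L : ℕ} (x : Nm L) : |aS L x| < 200 * 2 ^ L := by
  have h0 := one_le_pow_two L
  rcases x with _ | ⟨i, j⟩
  · rw [aS, abs_lt]
    constructor <;> linarith
  · have h := pow_bd i
    rw [abs_lt]
    fin_cases j <;> simp only [aS] <;> constructor <;> linarith [h.1, h.2]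

theorem bS_bd {L : ℕ} (x : Nm L) : |bS L x| < 200 * 2 ^ L := by
  have h0 := one_le_pow_two L
  rcases x with _ | ⟨i, j⟩
  · rw [bS, abs_lt]
    constructor <;> linarith
  · have h := pow_bd i
    rw [abs_lt]
    fin_cases j <;> simp only [bS] <;> constructor <;> linarith [h.1, h.2]

theorem aT_bd {L : ℕ} (x : Nm L) : |aT L x| < 200 * 2 ^ L := by
  have h0 := one_le_pow_two L
  rcases x with _ | ⟨i, j⟩
  · rw [aT, abs_lt]
    constructor <;> linarith
  · have h := pow_bd i
    rw [abs_lt]
    fin_cases j <;> simp only [aT] <;> constructor <;> linarith [h.1, h.2]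

theorem bT_bd {L : ℕ} (x : Nm L) : |bT L x| < 200 * 2 ^ L := by
  have h0 := one_le_pow_two L
  rcases x with _ | ⟨i, j⟩
  · rw [bT, abs_lt]
    constructor <;> linarith
  · have h := pow_bd i
    rw [abs_lt]
    fin_cases j <;> simp only [bT] <;> constructor <;> linarith [h.1, h.2]

/-- The weights of the graph. -/
noncomputable def wt (L r : ℕ) : Vx L r → Vx L r → ℝ
  | Sum.inl x, Sum.inr (Sum.inl 0) => 200 * 2 ^ L + aS L x
  | Sum.inl x, Sum.inr (Sum.inl 2) => 200 * 2 ^ L - bS L x
  | Sum.inr (Sum.inl 0), Sum.inr (Sum.inr (Sum.inl y)) => 200 * 2 ^ L - aT L y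
  | Sum.inr (Sum.inl 2), Sum.inr (Sum.inr (Sum.inl y)) => 200 * 2 ^ L + bT L y
  | _, _ => 200 * 2 ^ L

theorem wt_pos {L r : ℕ} (u v : Vx L r) : 0 < wt L r u v := by
  have h0 := one_le_pow_two L
  unfold wt
  split
  · next x => have := (abs_lt.1 (aS_bd x)).1; linarith
  · next x => have := (abs_lt.1 (bS_bd x)).2; linarith
  · next x => have := (abs_lt.1 (aT_bd x)).2; linarith
  · next x => have := (abs_lt.1 (bT_bd x)).1; linarith
  · positivity

section ladder

variable {L r : ℕ}

theorem via_wt0 (x y : Nm L) : via (wt L r) x y 0 = 400 * 2 ^ L + (aS L x - aT L y) := by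
  simp only [via, wt, src, mid, snk]
  ring

theorem via_wt1 (x y : Nm L) : via (wt L r) x y 1 = 400 * 2 ^ L := by
  simp only [via, wt, src, mid, snk]
  ring

theorem via_wt2 (x y : Nm L) : via (wt L r) x y 2 = 400 * 2 ^ L - (bS L x - bT L y) := by
  simp only [via, wt, src, mid, snk]
  ring

variable (h : Vx L r → Vx L r → ℝ)

/-- The first coordinate of a source in the reweighting. -/
def α (x : Nm L) : ℝ := h (src x) (mid 0) - h (src x) (mid 1)

/-- The second coordinate of a source in the reweighting. -/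
def β (x : Nm L) : ℝ := h (src x) (mid 1) - h (src x) (mid 2)

/-- The first coordinate of a sink in the reweighting. -/
def α' (y : Nm L) : ℝ := h (mid 1) (snk y) - h (mid 0) (snk y)

/-- The second coordinate of a sink in the reweighting. -/
def β' (y : Nm L) : ℝ := h (mid 2) (snk y) - h (mid 1) (snk y)

theorem best0 (hp : Preserving Ed (wt L r) h) (x y : Nm L) (h1 : aS L x < aT L y)
    (h2 : aS L x + bS L x < aT L y + bT L y) :
    α h x < α' h y ∧ α h x + β h x < α' h y + β' h y := by
  have key := keep hp x y 0 (by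
    intro m hm
    fin_cases m
    · exact absurd rfl hm
    · change via (wt L r) x y 0 < via (wt L r) x y 1
      rw [via_wt0, via_wt1]
      linarith
    · change via (wt L r) x y 0 < via (wt L r) x y 2
      rw [via_wt0, via_wt2]
      linarith)
  have k1 := key 1 (by decide)
  have k2 := key 2 (by decide)
  unfold via at k1 k2
  unfold α α' β β'
  constructor <;> linarith

theorem best1 (hp : Preserving Ed (wt L r) h) (x y : Nm L) (h1 : aT L y < aS L x)
    (h2 : bS L x < bT L y) : α' h y < α h x ∧ β h x < β' h y := by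
  have key := keep hp x y 1 (by
    intro m hm
    fin_cases m
    · change via (wt L r) x y 1 < via (wt L r) x y 0
      rw [via_wt0, via_wt1]
      linarith
    · exact absurd rfl hm
    · change via (wt L r) x y 1 < via (wt L r) x y 2
      rw [via_wt1, via_wt2]
      linarith)
  have k1 := key 0 (by decide)
  have k2 := key 2 (by decide)
  unfold via at k1 k2
  unfold α α' β β'
  constructor <;> linarith

theorem best2 (hp : Preserving Ed (wt L r) h) (x y : Nm L)
    (h1 : aT L y + bT L y < aS L x + bS L x) (h2 : bT L y < bS L x) :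
    α' h y + β' h y < α h x + β h x ∧ β' h y < β h x := by
  have key := keep hp x y 2 (by
    intro m hm
    fin_cases m
    · change via (wt L r) x y 2 < via (wt L r) x y 0
      rw [via_wt0, via_wt2]
      linarith
    · change via (wt L r) x y 2 < via (wt L r) x y 1
      rw [via_wt1, via_wt2]
      linarith
    · exact absurd rfl hm)
  have k1 := key 0 (by decide)
  have k2 := key 1 (by decide)
  unfold via at k1 k2
  unfold α α' β β'
  constructor <;> linarith

/-- The length of the `i`-th interval. -/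
def len (i : Fin (L + 1)) : ℝ := α' h (some (i, 0)) - α h (some (i, 0))

theorem len_pos (hp : Preserving Ed (wt L r) h) (i : Fin (L + 1)) : 0 < len h i := by
  have hi := pow_bd i
  have := (best0 h hp (some (i, 0)) (some (i, 0)) (by simp only [aS, aT]; linarith [hi.1])
    (by simp only [aS, aT, bS, bT]; linarith [hi.1])).1
  unfold len
  linarith

theorem len_step (hp : Preserving Ed (wt L r) h) (i j : Fin (L + 1)) (hij : j.val = i.val + 1) :
    2 * len h i < len h j := by
  have hi := pow_bd i
  have hj := pow_bd j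
  have hL := one_le_pow_two L
  have e : (2 : ℝ) ^ j.val = 2 * 2 ^ i.val := by rw [hij, pow_succ]; ring
  -- `P_j, Q_j`
  have c1 := (best0 h hp (some (j, 0)) (some (j, 0)) (by simp only [aS, aT]; linarith [hj.1])
    (by simp only [aS, aT, bS, bT]; linarith [hj.1])).2
  -- `R_i, S_i`
  have c2 := (best2 h hp (some (i, 1)) (some (i, 1))
    (by simp only [aS, aT, bS, bT]; linarith [hi.1]) (by simp only [bS, bT]; linarith [hi.1])).1
  -- `R'_i, S'_i`
  have c3 := (best2 h hp (some (i, 2)) (some (i, 2))
    (by simp only [aS, aT, bS, bT]; linarith [hi.1]) (by simp only [bS, bT]; linarith [hi.1])).1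
  -- `R_i < t1_i < P_i` and `R'_i < t1_i` in `a`
  have c4 := (best0 h hp (some (i, 1)) (some (i, 3)) (by simp only [aS, aT]; linarith)
    (by simp only [aS, aT, bS, bT]; linarith [hi.1, hi.2])).1
  have c5 := (best0 h hp (some (i, 2)) (some (i, 3)) (by simp only [aS, aT]; linarith)
    (by simp only [aS, aT, bS, bT]; linarith [hi.1, hi.2])).1
  have c6 := (best1 h hp (some (i, 0)) (some (i, 3)) (by simp only [aS, aT]; linarith)
    (by simp only [bS, bT]; linarith [hi.1, hi.2])).1
  -- `Q_i < z1_i < S_i, S'_i` in `a`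
  have c7 := (best1 h hp (some (i, 3)) (some (i, 0)) (by simp only [aS, aT]; linarith)
    (by simp only [bS, bT]; linarith [hi.1, hi.2])).1
  have c8 := (best0 h hp (some (i, 3)) (some (i, 1)) (by simp only [aS, aT]; linarith)
    (by simp only [aS, aT, bS, bT]; linarith [hi.1, hi.2])).1
  have c9 := (best0 h hp (some (i, 3)) (some (i, 2)) (by simp only [aS, aT]; linarith)
    (by simp only [aS, aT, bS, bT]; linarith [hi.1, hi.2])).1
  -- `R'_i < t3 < z3 < S_i` in `b`
  have d1 := (best1 h hp (some (i, 2)) none (by simp only [aS, aT]; linarith [hi.1, hi.2])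
    (by simp only [bS, bT]; norm_num)).2
  have d2 := (best2 h hp none none (by simp only [aS, aT, bS, bT]; linarith)
    (by simp only [bS, bT]; norm_num)).2
  have d3 := (best1 h hp none (some (i, 1)) (by simp only [aS, aT]; linarith [hi.1, hi.2])
    (by simp only [bS, bT]; norm_num)).2
  -- `R_i < t2_i < P_j` in `b`
  have d4 := (best1 h hp (some (i, 1)) (some (i, 4)) (by simp only [aS, aT]; linarith [hi.1, hi.2])
    (by simp only [bS, bT]; linarith)).2
  have d5 := (best2 h hp (some (j, 0)) (some (i, 4))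
    (by simp only [aS, aT, bS, bT]; linarith [hi.1, hi.2]) (by simp only [bS, bT]; linarith)).2
  -- `Q_j < z2_i < S'_i` in `b`
  have d6 := (best2 h hp (some (i, 4)) (some (j, 0))
    (by simp only [aS, aT, bS, bT]; linarith [hi.1, hi.2]) (by simp only [bS, bT]; linarith)).2
  have d7 := (best1 h hp (some (i, 4)) (some (i, 2)) (by simp only [aS, aT]; linarith [hi.1, hi.2])
    (by simp only [bS, bT]; linarith)).2
  unfold len
  linarith

theorem len_ge (hp : Preserving Ed (wt L r) h) (h1 : 1 ≤ len h 0) :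
    ∀ k : ℕ, ∀ hk : k < L + 1, (2 : ℝ) ^ k ≤ len h ⟨k, hk⟩ := by
  intro k
  induction k with
  | zero => intro _; simpa using h1
  | succ k ih =>
    intro hk
    have h2 := ih (by omega)
    have h3 := len_step h hp ⟨k, by omega⟩ ⟨k + 1, hk⟩ rfl
    rw [pow_succ]
    linarith

end ladder

theorem heavy_edge {L r : ℕ} (h : Vx L r → Vx L r → ℕ)
    (hp : Preserving Ed (wt L r) fun u v => (h u v : ℝ)) :
    ∃ u v, Ed u v ∧ (2 : ℝ) ^ L ≤ 2 * h u v := by
  have h1 : (1 : ℝ) ≤ len (fun u v => (h u v : ℝ)) (0 : Fin (L + 1)) := by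
    have h0 := len_pos _ hp (0 : Fin (L + 1))
    unfold len α α' at h0 ⊢
    have e : ((h (mid 1) (snk (some (0, 0))) : ℝ) - h (mid 0) (snk (some (0, 0))) -
        (h (src (some (0, 0))) (mid 0) - h (src (some (0, 0))) (mid 1))) =
        (((h (mid 1) (snk (some (0, 0))) : ℤ) - h (mid 0) (snk (some (0, 0))) -
        (h (src (some (0, 0))) (mid 0) - h (src (some (0, 0))) (mid 1)) : ℤ) : ℝ) := by
      push_cast
      ring
    rw [e] at h0 ⊢
    have h2 : 0 < ((h (mid 1) (snk (some (0, 0))) : ℤ) - h (mid 0) (snk (some (0, 0))) -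
        (h (src (some (0, 0))) (mid 0) - h (src (some (0, 0))) (mid 1)) : ℤ) := by
      exact_mod_cast h0
    exact_mod_cast h2
  have h2 := len_ge _ hp h1 L (by omega)
  unfold len α α' at h2
  have n1 : (0 : ℝ) ≤ h (mid 0) (snk (some (⟨L, by omega⟩, 0))) := Nat.cast_nonneg _
  have n2 : (0 : ℝ) ≤ h (src (some (⟨L, by omega⟩, 0))) (mid 0) := Nat.cast_nonneg _
  by_cases hc : (2 : ℝ) ^ L ≤ 2 * h (mid 1) (snk (some (⟨L, by omega⟩, 0)))
  · exact ⟨mid 1, snk (some (⟨L, by omega⟩, 0)), trivial, hc⟩
  · refine ⟨src (some (⟨L, by omega⟩, 0)), mid 1, trivial, ?_⟩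
    rw [not_le] at hc
    linarith

theorem pow_cmp (L : ℕ) (hL : 10 ≤ L) (r : ℕ) (hr : r < 10) :
    (21 / 20 : ℝ) ^ (10 * L + 15 + r) < 2 ^ L / 2 := by
  have h1 : ∀ k : ℕ, ((21 / 20 : ℝ) ^ 10) ^ (10 + k) * (21 / 20 : ℝ) ^ 24 < 2 ^ (10 + k) / 2 := by
    intro k
    induction k with
    | zero => norm_num
    | succ k ih =>
      rw [← add_assoc, pow_succ, pow_succ (2 : ℝ)]
      have h2 : ((21 / 20 : ℝ) ^ 10) < 2 := by norm_num
      have h3 : (0 : ℝ) < ((21 / 20 : ℝ) ^ 10) ^ (10 + k) * (21 / 20 : ℝ) ^ 24 := by positivity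
      nlinarith
  obtain ⟨k, rfl⟩ : ∃ k, L = 10 + k := ⟨L - 10, by omega⟩
  refine lt_of_le_of_lt ?_ (h1 k)
  rw [← pow_mul, ← pow_add]
  exact pow_le_pow_right₀ (by norm_num) (by omega)

/-- For every `n ≥ 120` there is a directed acyclic graph with `n` vertices and positive real weights
such that every shortest-paths preserving reweighting with positive integer weights has a weight
larger than `(21/20) ^ n`. -/
theorem result (n : ℕ) (hn : 120 ≤ n) :
    ∃ (V : Type) (_ : Fintype V) (E : V → V → Prop) (w : V → V → ℝ),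
      Fintype.card V = n ∧ Acyclic E ∧ (∀ u v, E u v → 0 < w u v) ∧
      ∀ h : V → V → ℕ, (∀ u v, E u v → 1 ≤ h u v) →
        Preserving E w (fun u v => (h u v : ℝ)) →
        ∃ u v, E u v ∧ (21 / 20 : ℝ) ^ n < h u v := by
  refine ⟨Vx ((n - 15) / 10) ((n - 15) % 10), inferInstance, Ed,
    wt ((n - 15) / 10) ((n - 15) % 10), ?_, acyclic, fun u v _ => wt_pos u v, ?_⟩
  · simp only [Fintype.card_sum, Fintype.card_option, Fintype.card_prod, Fintype.card_fin]
    omega
  · intro h _ hp
    obtain ⟨u, v, huv, h1⟩ := heavy_edge h hp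
    refine ⟨u, v, huv, ?_⟩
    have h2 := pow_cmp ((n - 15) / 10) (by omega) ((n - 15) % 10) (by omega)
    rw [show 10 * ((n - 15) / 10) + 15 + (n - 15) % 10 = n by omega] at h2
    linarith

end Pool.Agent.Results.MP_546b07_lc.ExponentialWeights
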